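import Pool.Agent.V1172.Radial

/-!
Integrals for the volume of the graph of `(ζ, w) ↦ [1 : α ζ^(M+1) : β w]`.
-/

set_option autoImplicit false

open Set Filter Topology MeasureTheory Metric Pool.Agent.V1172.Radial

open scoped ENNReal

namespace Pool.Agent.V1172.GVol

/-- product sets in `ℂ²` -/
def Box (U V : Set ℂ) : Set (Fin 2 → ℂ) := {z | z 0 ∈ U ∧ z 1 ∈ V}

theorem lintegral_Box {U V : Set ℂ} (hU : MeasurableSet U) (hV : MeasurableSet V)
    (f : ℂ → ℂ → ℝ≥0∞) (hf : Measurable (Function.uncurry f)) :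
    ∫⁻ z in Box U V, f (z 0) (z 1) = ∫⁻ ζ in U, ∫⁻ w in V, f ζ w := by
  have h1 : ∫⁻ z in Box U V, f (z 0) (z 1) =
      ∫⁻ p in U ×ˢ V, Function.uncurry f p := by
    have hmp := volume_preserving_finTwoArrow ℂ
    have h2 := hmp.setLIntegral_comp_preimage (hU.prod hV) hf
    rw [← h2]
    rfl
  rw [h1, Measure.volume_eq_prod, ← Measure.prod_restrict, lintegral_prod _ hf.aemeasurable]
  rfl

variable (M : ℕ) (α β : ℝ)

/-- `X = |α ζ^(M+1)|²` -/
noncomputable def X (ρ : ℝ) : ℝ := α ^ 2 * ρ ^ (2 * (M + 1))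

/-- `a = |(M+1) α ζ^M|²` -/
noncomputable def a (ρ : ℝ) : ℝ := ((M + 1 : ℕ) : ℝ) ^ 2 * α ^ 2 * ρ ^ (2 * M)

/-- `Y = |β w|²` -/
noncomputable def Y (t : ℝ) : ℝ := β ^ 2 * t ^ 2

noncomputable def T13 (ρ t : ℝ) : ℝ := 1 + β ^ 2 * (1 + X M α ρ) / (1 + X M α ρ + Y β t) ^ 2

noncomputable def T2 (ρ t : ℝ) : ℝ := a M α ρ * (1 + Y β t) / (1 + X M α ρ + Y β t) ^ 2

noncomputable def T4 (ρ t : ℝ) : ℝ := a M α ρ * β ^ 2 / (1 + X M α ρ + Y β t) ^ 3

theorem X_nonneg (ρ : ℝ) : 0 ≤ X M α ρ := by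
  unfold X
  rw [pow_mul]
  positivity

theorem a_nonneg (ρ : ℝ) : 0 ≤ a M α ρ := by
  unfold a
  rw [pow_mul]
  positivity

theorem Y_nonneg (t : ℝ) : 0 ≤ Y β t := by
  unfold Y
  positivity

theorem S_pos (ρ t : ℝ) : 0 < 1 + X M α ρ + Y β t := by
  have := X_nonneg M α ρ
  have := Y_nonneg β t
  linarith

theorem cont_X : Continuous (X M α) := by unfold X; fun_prop
theorem cont_a : Continuous (a M α) := by unfold a; fun_prop
theorem cont_Y : Continuous (Y β) := by unfold Y; fun_prop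

theorem cont_T13 : Continuous fun q : ℂ × ℂ => T13 M α β ‖q.1‖ ‖q.2‖ := by
  unfold T13
  have h1 := cont_X M α
  have h2 := cont_Y β
  refine continuous_const.add (Continuous.div (by fun_prop) (by fun_prop) fun q => ?_)
  exact (pow_pos (S_pos M α β _ _) 2).ne'

theorem cont_T2 : Continuous fun q : ℂ × ℂ => T2 M α β ‖q.1‖ ‖q.2‖ := by
  unfold T2
  have h1 := cont_X M α
  have h2 := cont_Y β
  have h3 := cont_a M α
  refine Continuous.div (by fun_prop) (by fun_prop) fun q => ?_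
  exact (pow_pos (S_pos M α β _ _) 2).ne'

theorem cont_T4 : Continuous fun q : ℂ × ℂ => T4 M α β ‖q.1‖ ‖q.2‖ := by
  unfold T4
  have h1 := cont_X M α
  have h2 := cont_Y β
  have h3 := cont_a M α
  refine Continuous.div (by fun_prop) (by fun_prop) fun q => ?_
  exact (pow_pos (S_pos M α β _ _) 3).ne'

theorem X_le {ρ : ℝ} (h0 : 0 ≤ ρ) (h1 : ρ ≤ 1) : X M α ρ ≤ α ^ 2 := by
  unfold X
  exact mul_le_of_le_one_right (by positivity) (pow_le_one₀ h0 h1)

theorem a_le {ρ : ℝ} (h0 : 0 ≤ ρ) (h1 : ρ ≤ 1) : a M α ρ ≤ ((M + 1 : ℕ) : ℝ) ^ 2 * α ^ 2 := by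
  unfold a
  exact mul_le_of_le_one_right (by positivity) (pow_le_one₀ h0 h1)

/-! ### One-dimensional integrals -/

theorem slice_integral (ρ : ℝ) :
    ∫⁻ w in Ann 0, ENNReal.ofReal (T13 M α β ρ ‖w‖) ≤ ENNReal.ofReal (2 * Real.pi) := by
  have hT : 0 < 1 + X M α ρ := by linarith [X_nonneg M α ρ]
  set T := 1 + X M α ρ with hTdef
  have hpos : ∀ t : ℝ, 0 < T + β ^ 2 * t ^ 2 := fun t => by positivity
  have h1 := lintegral_Ann (s := 0) le_rfl one_pos
    (fun t => 1 + β ^ 2 * T / (T + β ^ 2 * t ^ 2) ^ 2)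
    (fun t => t ^ 2 / 2 - T / 2 * (T + β ^ 2 * t ^ 2)⁻¹) ?_ ?_ ?_
  · have h2 : ∀ w : ℂ, T13 M α β ρ ‖w‖ = 1 + β ^ 2 * T / (T + β ^ 2 * ‖w‖ ^ 2) ^ 2 := by
      intro w; rfl
    simp only [h2]
    rw [h1]
    apply ENNReal.ofReal_le_ofReal
    have h3 : 0 < T + β ^ 2 * 1 ^ 2 := hpos 1
    have h4 : 0 ≤ T / 2 * (T + β ^ 2 * 1 ^ 2)⁻¹ := by positivity
    have h5 : T / 2 * (T + β ^ 2 * 0 ^ 2)⁻¹ = 1 / 2 := by
      have : T ≠ 0 := hT.ne'
      field_simp
      ring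
    rw [h5]
    have hpi := Real.pi_pos
    have : (1 : ℝ) ^ 2 / 2 - T / 2 * (T + β ^ 2 * 1 ^ 2)⁻¹ - (0 ^ 2 / 2 - 1 / 2) ≤ 1 := by
      linarith
    calc 2 * Real.pi * ((1 : ℝ) ^ 2 / 2 - T / 2 * (T + β ^ 2 * 1 ^ 2)⁻¹ - (0 ^ 2 / 2 - 1 / 2)) ≤
        2 * Real.pi * 1 := mul_le_mul_of_nonneg_left this (by positivity)
      _ = _ := by ring
  · apply Continuous.continuousOn
    exact continuous_const.add (Continuous.div (by fun_prop) (by fun_prop)
      fun t => (pow_pos (hpos t) 2).ne')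
  · intro t _
    have := hpos t
    positivity
  · intro t _
    have h1 : HasDerivAt (fun t : ℝ => T + β ^ 2 * t ^ 2) (β ^ 2 * (2 * t)) t := by
      have := ((hasDerivAt_pow 2 t).const_mul (β ^ 2)).const_add T
      simpa using this
    have h2 := (h1.inv (hpos t).ne').const_mul (T / 2)
    have h3 : HasDerivAt (fun t : ℝ => t ^ 2 / 2) t t := by
      have := (hasDerivAt_pow 2 t).div_const 2
      simpa using this
    have h4 := h3.sub h2
    refine h4.congr_deriv ?_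
    field_simp
    ring

theorem T2_integral (c : ℝ) (hβ : 0 < β) (hc : 0 ≤ c) :
    ∫⁻ w in Ann 0, ENNReal.ofReal (c / (1 + β ^ 2 * ‖w‖ ^ 2)) ≤
      ENNReal.ofReal (2 * Real.pi * c / β) := by
  have hpos : ∀ t : ℝ, 0 < 1 + β ^ 2 * t ^ 2 := fun t => by positivity
  have h1 := lintegral_Ann (s := 0) le_rfl one_pos
    (fun t => c / (1 + β ^ 2 * t ^ 2))
    (fun t => c / (2 * β ^ 2) * Real.log (1 + β ^ 2 * t ^ 2)) ?_ ?_ ?_
  · rw [h1]
    apply ENNReal.ofReal_le_ofReal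
    have h2 : Real.log (1 + β ^ 2 * 0 ^ 2) = 0 := by simp
    have h3 : Real.log (1 + β ^ 2 * 1 ^ 2) ≤ 2 * β := by
      have h4 : (1 : ℝ) + β ^ 2 * 1 ^ 2 ≤ (1 + β) ^ 2 := by nlinarith
      have h5 := Real.log_le_log (hpos 1) h4
      rw [Real.log_pow] at h5
      have h6 := Real.log_le_sub_one_of_pos (show (0 : ℝ) < 1 + β by linarith)
      push_cast at h5
      linarith
    rw [h2]
    have hpi := Real.pi_pos
    have h7 : c / (2 * β ^ 2) * Real.log (1 + β ^ 2 * 1 ^ 2) ≤ c / (2 * β ^ 2) * (2 * β) :=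
      mul_le_mul_of_nonneg_left h3 (by positivity)
    have h8 : c / (2 * β ^ 2) * (2 * β) = c / β := by
      field_simp
    calc 2 * Real.pi * (c / (2 * β ^ 2) * Real.log (1 + β ^ 2 * 1 ^ 2) - c / (2 * β ^ 2) * 0) ≤
        2 * Real.pi * (c / β) := by
          refine mul_le_mul_of_nonneg_left ?_ (by positivity)
          rw [mul_zero, sub_zero, ← h8]; exact h7
      _ = _ := by ring
  · apply Continuous.continuousOn
    exact Continuous.div (by fun_prop) (by fun_prop) fun t => (hpos t).ne'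
  · intro t _
    have := hpos t
    positivity
  · intro t _
    have h1 : HasDerivAt (fun t : ℝ => 1 + β ^ 2 * t ^ 2) (β ^ 2 * (2 * t)) t := by
      have := ((hasDerivAt_pow 2 t).const_mul (β ^ 2)).const_add 1
      simpa using this
    have h2 := (h1.log (hpos t).ne').const_mul (c / (2 * β ^ 2))
    refine h2.congr_deriv ?_
    have := hpos t
    field_simp

theorem T4_integral (ρ : ℝ) :
    ∫⁻ w in Ann 0, ENNReal.ofReal (T4 M α β ρ ‖w‖) =
      ENNReal.ofReal (Real.pi / 2 * a M α ρ *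
        (1 / (1 + X M α ρ) ^ 2 - 1 / (1 + X M α ρ + β ^ 2) ^ 2)) := by
  have hT : 0 < 1 + X M α ρ := by linarith [X_nonneg M α ρ]
  have ha := a_nonneg M α ρ
  have hT4 : ∀ w : ℂ, T4 M α β ρ ‖w‖ =
      a M α ρ * β ^ 2 / ((1 + X M α ρ) + β ^ 2 * ‖w‖ ^ 2) ^ 3 := fun w => rfl
  simp only [hT4]
  set T := 1 + X M α ρ with hTdef
  set A := a M α ρ with hAdef
  have hpos : ∀ t : ℝ, 0 < T + β ^ 2 * t ^ 2 := fun t => by positivity
  rw [lintegral_Ann (s := 0) le_rfl one_pos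
    (fun t => A * β ^ 2 / (T + β ^ 2 * t ^ 2) ^ 3)
    (fun t => -(A / 4) * ((T + β ^ 2 * t ^ 2) ^ 2)⁻¹) ?_ ?_ ?_]
  · congr 1
    have := hpos 1
    have := hpos 0
    simp only [one_div]
    ring
  · apply Continuous.continuousOn
    exact Continuous.div (by fun_prop) (by fun_prop) fun t => (pow_pos (hpos t) 3).ne'
  · intro t _
    have := hpos t
    positivity
  · intro t _
    have h1 : HasDerivAt (fun t : ℝ => T + β ^ 2 * t ^ 2) (β ^ 2 * (2 * t)) t := by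
      have := ((hasDerivAt_pow 2 t).const_mul (β ^ 2)).const_add T
      simpa using this
    have h2 := h1.pow 2
    have h3 := (h2.inv (pow_pos (hpos t) 2).ne').const_mul (-(A / 4))
    refine h3.congr_deriv ?_
    have := hpos t
    simp only [Pi.pow_apply]
    field_simp
    ring

theorem a_integral {s : ℝ} (hs0 : 0 ≤ s) (hs1 : s < 1) (c : ℝ) (hc : 0 ≤ c) :
    ∫⁻ ζ in Ann s, ENNReal.ofReal (c * a M α ‖ζ‖ / (1 + X M α ‖ζ‖) ^ 2) =
      ENNReal.ofReal (Real.pi * c * (M + 1) *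
        (1 / (1 + α ^ 2 * s ^ (2 * (M + 1))) - 1 / (1 + α ^ 2))) := by
  have hpos : ∀ t : ℝ, 0 < 1 + X M α t := fun t => by linarith [X_nonneg M α t]
  rw [lintegral_Ann (s := s) hs0 hs1
    (fun t => c * a M α t / (1 + X M α t) ^ 2)
    (fun t => -(c * (M + 1) / 2) * (1 + X M α t)⁻¹) ?_ ?_ ?_]
  · congr 1
    have h1 : X M α 1 = α ^ 2 := by simp [X]
    have h2 : X M α s = α ^ 2 * s ^ (2 * (M + 1)) := rfl
    rw [h1, h2]
    simp only [one_div]
    ring
  · apply Continuous.continuousOn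
    have h1 := cont_X M α
    have h3 := cont_a M α
    exact Continuous.div (by fun_prop) (by fun_prop) fun t => (pow_pos (hpos t) 2).ne'
  · intro t _
    have := hpos t
    have := a_nonneg M α t
    positivity
  · intro t _
    have h1 : HasDerivAt (fun t : ℝ => 1 + X M α t)
        (α ^ 2 * ((2 * (M + 1) : ℕ) * t ^ (2 * (M + 1) - 1))) t := by
      have := ((hasDerivAt_pow (2 * (M + 1)) t).const_mul (α ^ 2)).const_add 1
      exact this
    have h3 := (h1.inv (hpos t).ne').const_mul (-(c * (M + 1) / 2))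
    refine h3.congr_deriv ?_
    have := hpos t
    unfold a
    have h4 : 2 * (M + 1) - 1 = 2 * M + 1 := by omega
    rw [h4]
    push_cast
    field_simp
    ring

theorem vol_Ann : ∫⁻ _ in Ann 0, (1 : ℝ≥0∞) = ENNReal.ofReal Real.pi := by
  have h := lintegral_Ann (s := 0) le_rfl one_pos (fun _ => 1) (fun t => t ^ 2 / 2) ?_ ?_ ?_
  · simp only [ENNReal.ofReal_one] at h
    rw [h]
    congr 1
    ring
  · exact continuousOn_const
  · intro t _; exact zero_le_one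
  · intro t _
    have := (hasDerivAt_pow 2 t).div_const 2
    simpa using this

end Pool.Agent.V1172.GVol
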