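import Mathlib

/-!
Radial integrals over annuli in `ℂ`.
-/

set_option autoImplicit false

open Set Filter Topology MeasureTheory Metric

namespace Pool.Agent.V1172.Radial

/-- The half-open annulus. -/
def Ann (s : ℝ) : Set ℂ := {w | s ≤ ‖w‖ ∧ ‖w‖ < 1}

theorem measurableSet_Ann (s : ℝ) : MeasurableSet (Ann s) := by
  have h : Ann s = (fun w : ℂ => ‖w‖) ⁻¹' Ico s 1 := rfl
  rw [h]
  exact measurable_norm measurableSet_Ico

theorem integral_Ann {s : ℝ} (hs0 : 0 ≤ s) (hs1 : s < 1) (g G : ℝ → ℝ)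
    (hg : ContinuousOn g (Icc s 1))
    (hG : ∀ ρ ∈ Icc s 1, HasDerivAt G (ρ * g ρ) ρ) :
    ∫ w in Ann s, g ‖w‖ = 2 * Real.pi * (G 1 - G s) := by
  have h1 : ∫ w in Ann s, g ‖w‖ = ∫ w : ℂ, (indicator (Ico s 1) g) ‖w‖ := by
    rw [← integral_indicator (measurableSet_Ann s)]
    refine integral_congr_ae (Eventually.of_forall fun w => ?_)
    by_cases hw : w ∈ Ann s
    · have hw' : ‖w‖ ∈ Ico s 1 := hw
      simp only [indicator_of_mem hw, indicator_of_mem hw']
    · have hw' : ‖w‖ ∉ Ico s 1 := hw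
      simp only [indicator_of_notMem hw, indicator_of_notMem hw']
  rw [h1, integral_fun_norm_addHaar volume (indicator (Ico s 1) g)]
  have h2 : ∫ y in Ioi (0 : ℝ), y ^ (Module.finrank ℝ ℂ - 1) • indicator (Ico s 1) g y =
      ∫ y in s..1, y * g y := by
    rw [Complex.finrank_real_complex]
    have h3 : ∀ y : ℝ, y ^ (2 - 1) • indicator (Ico s 1) g y =
        indicator (Ico s 1) (fun y => y * g y) y := by
      intro y
      by_cases hy : y ∈ Ico s 1
      · simp [indicator_of_mem hy]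
      · simp [indicator_of_notMem hy]
    simp only [h3]
    rw [setIntegral_indicator measurableSet_Ico]
    rw [intervalIntegral.integral_of_le hs1.le]
    refine setIntegral_congr_set ?_
    have h4 : (Ioi (0 : ℝ) ∩ Ico s 1 : Set ℝ) =ᵐ[volume] (Ioc s 1 : Set ℝ) := by
      have h5 : (Ioo s 1 : Set ℝ) =ᵐ[volume] (Ioc s 1 : Set ℝ) := Ioo_ae_eq_Ioc
      have h6 : (Ioo s 1 : Set ℝ) =ᵐ[volume] (Ico s 1 : Set ℝ) := Ioo_ae_eq_Ico
      have h7 : (Ioi (0 : ℝ) ∩ Ioo s 1 : Set ℝ) = Ioo s 1 := by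
        ext y
        constructor
        · exact fun h => h.2
        · exact fun h => ⟨hs0.trans_lt h.1, h⟩
      have h8 : (Ioi (0 : ℝ) ∩ Ico s 1 : Set ℝ) =ᵐ[volume] (Ioi (0 : ℝ) ∩ Ioo s 1 : Set ℝ) :=
        ae_eq_set_inter (ae_eq_refl _) h6.symm
      rw [h7] at h8
      exact h8.trans h5
    exact h4
  rw [h2]
  have h8 : ∫ y in s..1, y * g y = G 1 - G s := by
    refine intervalIntegral.integral_eq_sub_of_hasDerivAt ?_ ?_
    · intro y hy
      rw [uIcc_of_le hs1.le] at hy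
      exact hG y hy
    · refine ContinuousOn.intervalIntegrable ?_
      rw [uIcc_of_le hs1.le]
      exact continuousOn_id.mul hg
  rw [h8]
  have h9 : (volume : Measure ℂ).real (ball 0 1) = Real.pi := by
    rw [Measure.real, Complex.volume_ball]
    simp
  rw [h9, Complex.finrank_real_complex]
  simp only [nsmul_eq_mul, smul_eq_mul]
  push_cast
  ring

theorem integrableOn_Ann {s : ℝ} (g : ℝ → ℝ) (hg : ContinuousOn g (Icc s 1)) :
    IntegrableOn (fun w : ℂ => g ‖w‖) (Ann s) := by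
  have hK : IsCompact {w : ℂ | s ≤ ‖w‖ ∧ ‖w‖ ≤ 1} := by
    refine (isCompact_closedBall (0 : ℂ) 1).of_isClosed_subset ?_ ?_
    · exact (isClosed_le continuous_const continuous_norm).inter
        (isClosed_le continuous_norm continuous_const)
    · intro w hw
      rw [mem_closedBall_zero_iff]; exact hw.2
  have h1 : ContinuousOn (fun w : ℂ => g ‖w‖) {w : ℂ | s ≤ ‖w‖ ∧ ‖w‖ ≤ 1} :=
    hg.comp continuous_norm.continuousOn fun w hw => hw
  exact (h1.integrableOn_compact hK).mono_set fun w hw => ⟨hw.1, hw.2.le⟩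

theorem lintegral_Ann {s : ℝ} (hs0 : 0 ≤ s) (hs1 : s < 1) (g G : ℝ → ℝ)
    (hg : ContinuousOn g (Icc s 1)) (hg0 : ∀ ρ ∈ Icc s 1, 0 ≤ g ρ)
    (hG : ∀ ρ ∈ Icc s 1, HasDerivAt G (ρ * g ρ) ρ) :
    ∫⁻ w in Ann s, ENNReal.ofReal (g ‖w‖) = ENNReal.ofReal (2 * Real.pi * (G 1 - G s)) := by
  rw [← integral_Ann hs0 hs1 g G hg hG]
  rw [ofReal_integral_eq_lintegral_ofReal (integrableOn_Ann g hg)]
  rw [EventuallyLE, ae_restrict_iff' (measurableSet_Ann s)]
  exact Eventually.of_forall fun w hw => hg0 _ ⟨hw.1, hw.2.le⟩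

end Pool.Agent.V1172.Radial
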