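import Mathlib

/-!
Tame sets, complete holomorphic vector fields, flexibility and the density property for open subsets
of a complex normed space, and the domain `{Re z > 0} × ℂ²` of `ℂ³`.
-/

set_option autoImplicit false

open Set Filter Topology

namespace Pool.Agent.V1172.TameDisc

variable {E : Type*} [NormedAddCommGroup E] [NormedSpace ℂ E]

/-- `φ` restricts to a biholomorphic self-map of the open set `U`. -/
def IsAut (U : Set E) (φ : E → E) : Prop :=
  MapsTo φ U U ∧ DifferentiableOn ℂ φ U ∧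
    ∃ ψ : E → E, MapsTo ψ U U ∧ DifferentiableOn ℂ ψ U ∧ LeftInvOn ψ φ U ∧ RightInvOn ψ φ U

/-- The automorphism group of `U` acts transitively on `U`. -/
def IsTransitive (U : Set E) : Prop :=
  ∀ x ∈ U, ∀ y ∈ U, ∃ φ : E → E, IsAut U φ ∧ φ x = y

/-- `A` is a tame set in `U`: an infinite subset without accumulation point in `U` such that every
injective self-map of `A` is the restriction of an automorphism of `U`. -/
def IsTame (U A : Set E) : Prop :=
  A ⊆ U ∧ A.Infinite ∧ (∀ x ∈ U, ¬ AccPt x (𝓟 A)) ∧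
    ∀ f : E → E, MapsTo f A A → InjOn f A → ∃ φ : E → E, IsAut U φ ∧ EqOn φ f A

/-- The open set `U` is a (connected) Stein manifold: holomorphic functions separate its points and
holomorphic hulls of compact subsets are compact. -/
def IsStein (U : Set E) : Prop :=
  IsOpen U ∧ IsConnected U ∧
    (∀ x ∈ U, ∀ y ∈ U, x ≠ y → ∃ f : E → ℂ, DifferentiableOn ℂ f U ∧ f x ≠ f y) ∧
    ∀ K ⊆ U, IsCompact K →
      IsCompact {x ∈ U | ∀ f : E → ℂ, DifferentiableOn ℂ f U →
        ∀ M : ℝ, (∀ y ∈ K, ‖f y‖ ≤ M) → ‖f x‖ ≤ M}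

/-- `V` is a complete holomorphic vector field on `U`: through every point of `U` there is a
complex integral curve in `U` defined for all complex times. -/
def IsCompleteField (U : Set E) (V : E → E) : Prop :=
  DifferentiableOn ℂ V U ∧
    ∀ x ∈ U, ∃ γ : ℂ → E, γ 0 = x ∧ (∀ t, γ t ∈ U) ∧ ∀ t, HasDerivAt γ (V (γ t)) t

/-- `U` is holomorphically flexible: the complete holomorphic vector fields span every tangent
space. -/
def IsFlexible (U : Set E) : Prop :=
  ∀ x ∈ U, Submodule.span ℂ {v : E | ∃ V : E → E, IsCompleteField U V ∧ V x = v} = ⊤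

/-- The Lie algebra generated by the complete holomorphic vector fields on `U`. -/
inductive InLie (U : Set E) : (E → E) → Prop
  | complete (V : E → E) : IsCompleteField U V → InLie U V
  | add (V W : E → E) : InLie U V → InLie U W → InLie U (fun x => V x + W x)
  | smul (c : ℂ) (V : E → E) : InLie U V → InLie U (fun x => c • V x)
  | bracket (V W : E → E) : InLie U V → InLie U W →
      InLie U (fun x => fderiv ℂ W x (V x) - fderiv ℂ V x (W x))

/-- `U` has the density property: the Lie algebra generated by the complete holomorphic vector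
fields is dense in all holomorphic vector fields, for locally uniform convergence. -/
def HasDensityProperty (U : Set E) : Prop :=
  ∀ V : E → E, DifferentiableOn ℂ V U → ∀ K ⊆ U, IsCompact K → ∀ ε : ℝ, 0 < ε →
    ∃ W : E → E, InLie U W ∧ ∀ x ∈ K, ‖W x - V x‖ < ε

/-! ### Interpolation by entire functions -/

theorem step (c : ℕ → ℂ) (n : ℕ) (S : ℂ → ℂ) : ∃ T : ℂ → ℂ, Differentiable ℂ T ∧
    (∀ j : ℕ, j < n → T j = 0) ∧ T n = c n - S n ∧
    (0 < n → ∀ z : ℂ, ‖z‖ ≤ n / 2 → ‖T z‖ ≤ (1 / 2 : ℝ) ^ n) := by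
  let P : ℂ → ℂ := fun z => ∏ j ∈ Finset.range n, (z - j) / (n - j)
  have hP : Differentiable ℂ P := by
    show Differentiable ℂ (fun z => ∏ j ∈ Finset.range n, (z - (j : ℂ)) / ((n : ℂ) - j))
    fun_prop
  have hPn : P n = 1 := by
    apply Finset.prod_eq_one
    intro j hj
    have : (n : ℂ) - j ≠ 0 := by
      rw [sub_ne_zero]
      exact_mod_cast (Finset.mem_range.1 hj).ne'
    exact div_self this
  have hPj : ∀ j : ℕ, j < n → P j = 0 := by
    intro j hj
    apply Finset.prod_eq_zero (Finset.mem_range.2 hj)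
    simp
  set b := c n - S n with hb
  obtain ⟨C, hC⟩ := (isCompact_closedBall (0 : ℂ) (n / 2 : ℝ)).exists_bound_of_continuousOn
    (f := fun z => b * P z) (by fun_prop)
  -- choose the exponent
  obtain ⟨m, hm⟩ : ∃ m : ℕ, 0 < n → |C| * Real.exp (-(m : ℝ) / 2) ≤ (1 / 2 : ℝ) ^ n := by
    have h0 : Tendsto (fun m : ℕ => |C| * Real.exp (-(m : ℝ) / 2)) atTop (𝓝 (|C| * 0)) := by
      apply Tendsto.const_mul
      apply Real.tendsto_exp_atBot.comp
      have : Tendsto (fun m : ℕ => ((m : ℝ) / 2)) atTop atTop :=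
        tendsto_natCast_atTop_atTop.atTop_div_const (by norm_num)
      have h2 := tendsto_neg_atTop_atBot.comp this
      refine h2.congr fun m => ?_
      simp [neg_div]
    rw [mul_zero] at h0
    obtain ⟨m, hm⟩ := (h0.eventually_le_const (show (0 : ℝ) < (1 / 2) ^ n by positivity)).exists
    exact ⟨m, fun _ => hm⟩
  refine ⟨fun z => b * P z * Complex.exp (m * (z - n)), by fun_prop, ?_, ?_, ?_⟩
  · intro j hj
    simp only [hPj j hj]; ring
  · simp only [hPn]; simp
  · intro hn z hz
    have h1 : ‖b * P z‖ ≤ |C| := (hC z (by simpa using hz)).trans (le_abs_self C)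
    have h2 : ‖Complex.exp (m * (z - n))‖ ≤ Real.exp (-(m : ℝ) / 2) := by
      rw [Complex.norm_exp]
      apply Real.exp_le_exp.2
      have e : ((m : ℂ) * (z - n)).re = m * (z.re - n) := by simp
      rw [e]
      have h3 : z.re ≤ n / 2 := (Complex.re_le_norm z).trans hz
      have h4 : (1 : ℝ) ≤ n := by exact_mod_cast hn
      have h5 : (0 : ℝ) ≤ m := by positivity
      nlinarith
    rw [norm_mul]
    calc ‖b * P z‖ * ‖Complex.exp (m * (z - n))‖ ≤ |C| * Real.exp (-(m : ℝ) / 2) := by
          gcongr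
      _ ≤ _ := hm hn

/-- Every sequence is interpolated on `ℕ` by an entire function. -/
theorem entire_interp (c : ℕ → ℂ) : ∃ u : ℂ → ℂ, Differentiable ℂ u ∧ ∀ n : ℕ, u n = c n := by
  choose T hTd hT0 hTn hTb using step c
  let S : ℕ → ℂ → ℂ := fun n => Nat.rec (fun _ => 0) (fun n s z => s z + T n s z) n
  have hS0 : ∀ z, S 0 z = 0 := fun z => rfl
  have hSs : ∀ n z, S (n + 1) z = S n z + T n (S n) z := fun n z => rfl
  let t : ℕ → ℂ → ℂ := fun n => T n (S n)
  have hSt : ∀ n z, S n z = ∑ k ∈ Finset.range n, t k z := by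
    intro n z
    induction n with
    | zero => simp [hS0]
    | succ n ih => rw [hSs, ih, Finset.sum_range_succ]
  have hb : ∀ n : ℕ, 0 < n → ∀ z : ℂ, ‖z‖ ≤ n / 2 → ‖t n z‖ ≤ (1 / 2 : ℝ) ^ n :=
    fun n hn z hz => hTb n (S n) hn z hz
  have hgeo : Summable fun n : ℕ => (1 / 2 : ℝ) ^ n := summable_geometric_two
  -- shifted bound
  have hbN : ∀ N : ℕ, 0 < N → ∀ n : ℕ, ∀ z : ℂ, ‖z‖ ≤ N / 2 → ‖t (n + N) z‖ ≤ (1 / 2 : ℝ) ^ n := by
    intro N hN n z hz
    refine (hb (n + N) (by omega) z ?_).trans ?_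
    · refine hz.trans ?_
      push_cast
      have : (0 : ℝ) ≤ n := by positivity
      linarith
    · apply pow_le_pow_of_le_one (by norm_num) (by norm_num) (by omega)
  have hsum : ∀ z : ℂ, Summable fun n => t n z := by
    intro z
    obtain ⟨N, hN⟩ := exists_nat_gt (2 * ‖z‖)
    have hN0 : 0 < N := by
      have : (0 : ℝ) < N := lt_of_le_of_lt (by positivity) hN
      exact_mod_cast this
    rw [← summable_nat_add_iff N]
    exact Summable.of_norm_bounded hgeo fun n => hbN N hN0 n z (by linarith)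
  refine ⟨fun z => ∑' n, t n z, ?_, ?_⟩
  · intro z0
    obtain ⟨N, hN⟩ := exists_nat_gt (2 * ‖z0‖)
    have hN0 : 0 < N := by
      have : (0 : ℝ) < N := lt_of_le_of_lt (by positivity) hN
      exact_mod_cast this
    have h1 : DifferentiableOn ℂ (fun z => ∑' n, t (n + N) z) (Metric.ball 0 (N / 2 : ℝ)) := by
      apply Complex.differentiableOn_tsum_of_summable_norm hgeo
        (fun n => (hTd (n + N) (S (n + N))).differentiableOn) Metric.isOpen_ball
      intro n z hz
      exact hbN N hN0 n z (by simpa using (le_of_lt (mem_ball_zero_iff.1 hz)))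
    have h2 : DifferentiableOn ℂ (fun z => ∑ n ∈ Finset.range N, t n z)
        (Metric.ball 0 (N / 2 : ℝ)) := by
      apply DifferentiableOn.fun_sum
      intro n _
      exact (hTd n (S n)).differentiableOn
    have h3 := h2.fun_add h1
    have h4 : (fun z => ∑' n, t n z) =
        fun z => ∑ n ∈ Finset.range N, t n z + ∑' n, t (n + N) z := by
      funext z
      exact ((hsum z).sum_add_tsum_nat_add N).symm
    rw [h4]
    exact h3.differentiableAt (Metric.isOpen_ball.mem_nhds (by
      rw [mem_ball_zero_iff]; linarith))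
  · intro n
    have h0 : ∀ k, k ∉ Finset.range (n + 1) → t k (n : ℂ) = 0 := by
      intro k hk
      exact hT0 k (S k) n (by simpa using hk)
    show ∑' k, t k (n : ℂ) = c n
    rw [tsum_eq_sum h0, ← hSt, hSs, hTn]
    ring

/-! ### The domain `{Re z > 0} × ℂ²` -/

/-- The domain `{Re z > 0} × ℂ²`, biholomorphic to the product of the unit disc and `ℂ²`. -/
def Dom : Set (ℂ × ℂ × ℂ) := {p | 0 < p.1.re}

theorem isOpen_Dom : IsOpen Dom := isOpen_lt continuous_const (Complex.continuous_re.comp continuous_fst)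

theorem isConnected_Dom : IsConnected Dom := by
  refine ⟨⟨(1, 0, 0), by simp [Dom]⟩, ?_⟩
  apply Convex.isPreconnected
  intro x hx y hy a b ha hb hab
  simp only [Dom, mem_ofPred_eq] at hx hy ⊢
  simp only [Prod.fst_add, Prod.smul_fst, Complex.add_re, Complex.real_smul, Complex.mul_re,
    Complex.ofReal_re, Complex.ofReal_im, zero_mul, sub_zero]
  rcases eq_or_lt_of_le ha with h | h
  · have : b = 1 := by linarith
    subst this; rw [← h]; simpa using hy
  · have := mul_pos h hx
    have := mul_nonneg hb hy.le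
    linarith

theorem isStein_Dom : IsStein Dom := by
  refine ⟨isOpen_Dom, isConnected_Dom, ?_, ?_⟩
  · intro x _ y _ hxy
    by_cases h1 : x.1 = y.1
    · by_cases h2 : x.2.1 = y.2.1
      · refine ⟨fun p => p.2.2, by fun_prop, fun h3 => hxy ?_⟩
        exact Prod.ext h1 (Prod.ext h2 h3)
      · exact ⟨fun p => p.2.1, by fun_prop, h2⟩
    · exact ⟨fun p => p.1, by fun_prop, h1⟩
  · intro K hK hKc
    rcases K.eq_empty_or_nonempty with rfl | hne
    · convert isCompact_empty
      rw [Set.eq_empty_iff_forall_notMem]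
      rintro x ⟨_, hx⟩
      have := hx (fun _ => 0) (by fun_prop) (-1) (by simp)
      simp at this
      linarith
    · -- lower bound for the real part
      obtain ⟨x0, hx0, hmin⟩ := hKc.exists_isMinOn hne
        ((Complex.continuous_re.comp continuous_fst).continuousOn)
      set δ : ℝ := x0.1.re with hδ
      have hδ0 : 0 < δ := hK hx0
      obtain ⟨M, hM⟩ := hKc.isBounded.exists_norm_le
      set C : Set (ℂ × ℂ × ℂ) := {p | δ ≤ p.1.re} ∩ Metric.closedBall 0 M with hC
      have hCc : IsCompact C :=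
        (isCompact_closedBall _ _).inter_left
          (isClosed_le continuous_const (Complex.continuous_re.comp continuous_fst))
      have hCU : C ⊆ Dom := fun p hp => lt_of_lt_of_le hδ0 hp.1
      have hsub : {x ∈ Dom | ∀ f : ℂ × ℂ × ℂ → ℂ, DifferentiableOn ℂ f Dom →
          ∀ M : ℝ, (∀ y ∈ K, ‖f y‖ ≤ M) → ‖f x‖ ≤ M} =
          C ∩ ⋂ (f : ℂ × ℂ × ℂ → ℂ) (_ : DifferentiableOn ℂ f Dom) (M : ℝ)
            (_ : ∀ y ∈ K, ‖f y‖ ≤ M), {x ∈ C | ‖f x‖ ≤ M} := by
        apply Subset.antisymm
        · rintro x ⟨hxU, hx⟩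
          have hxC : x ∈ C := by
            constructor
            · have := hx (fun p => Complex.exp (-p.1)) (by fun_prop) (Real.exp (-δ)) (by
                intro y hy
                rw [Complex.norm_exp]
                apply Real.exp_le_exp.2
                have := hmin hy
                simp only [Function.comp] at this
                rw [Complex.neg_re]
                simpa using this)
              rw [Complex.norm_exp] at this
              have := Real.exp_le_exp.1 this
              simp at this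
              exact this
            · rw [mem_closedBall_zero_iff]
              have n1 : ‖x.1‖ ≤ M := hx (fun p => p.1) (by fun_prop) M
                fun y hy => (norm_fst_le y).trans (hM y hy)
              have n2 : ‖x.2.1‖ ≤ M := hx (fun p => p.2.1) (by fun_prop) M
                fun y hy => (norm_fst_le y.2).trans ((norm_snd_le y).trans (hM y hy))
              have n3 : ‖x.2.2‖ ≤ M := hx (fun p => p.2.2) (by fun_prop) M
                fun y hy => (norm_snd_le y.2).trans ((norm_snd_le y).trans (hM y hy))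
              rw [Prod.norm_def, Prod.norm_def]
              exact max_le n1 (max_le n2 n3)
          refine ⟨hxC, ?_⟩
          simp only [mem_iInter]
          intro f hf M' hM'
          exact ⟨hxC, hx f hf M' hM'⟩
        · rintro x ⟨hxC, hx⟩
          refine ⟨hCU hxC, fun f hf M' hM' => ?_⟩
          simp only [mem_iInter] at hx
          exact (hx f hf M' hM').2
      rw [hsub]
      apply hCc.inter_right
      apply isClosed_iInter; intro f
      apply isClosed_iInter; intro hf
      apply isClosed_iInter; intro M'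
      apply isClosed_iInter; intro _
      have hcont : ContinuousOn (fun x => ‖f x‖) C := (hf.continuousOn.mono hCU).norm
      exact hcont.preimage_isClosed_of_isClosed hCc.isClosed isClosed_Iic

theorem isTransitive_Dom : IsTransitive Dom := by
  intro x hx y hy
  have hx' : 0 < x.1.re := hx
  have hy' : 0 < y.1.re := hy
  set s : ℝ := y.1.re / x.1.re with hs
  have hs0 : 0 < s := div_pos hy' hx'
  have hsc : (s : ℂ) ≠ 0 := by exact_mod_cast hs0.ne'
  set b : ℝ := y.1.im - s * x.1.im with hb
  refine ⟨fun p => (s * p.1 + b * Complex.I, p.2.1 + (y.2.1 - x.2.1), p.2.2 + (y.2.2 - x.2.2)),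
    ⟨?_, by fun_prop, fun p => ((s : ℂ)⁻¹ * (p.1 - b * Complex.I), p.2.1 - (y.2.1 - x.2.1),
      p.2.2 - (y.2.2 - x.2.2)), ?_, by fun_prop, ?_, ?_⟩, ?_⟩
  · intro p hp
    have hp' : 0 < p.1.re := hp
    show 0 < ((s : ℂ) * p.1 + b * Complex.I).re
    simp
    positivity
  · intro p hp
    have hp' : 0 < p.1.re := hp
    show 0 < ((s : ℂ)⁻¹ * (p.1 - b * Complex.I)).re
    rw [← Complex.ofReal_inv, Complex.re_ofReal_mul]
    simp
    positivity
  · intro p _
    refine Prod.ext ?_ (Prod.ext ?_ ?_)
    · show (s : ℂ)⁻¹ * (s * p.1 + b * Complex.I - b * Complex.I) = p.1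
      field_simp
      ring
    · simp
    · simp
  · intro p _
    refine Prod.ext ?_ (Prod.ext ?_ ?_)
    · show (s : ℂ) * ((s : ℂ)⁻¹ * (p.1 - b * Complex.I)) + b * Complex.I = p.1
      field_simp
      ring
    · simp
    · simp
  · refine Prod.ext ?_ (Prod.ext ?_ ?_)
    · show (s : ℂ) * x.1 + b * Complex.I = y.1
      apply Complex.ext
      · simp [hs]; field_simp
      · simp [hb]
    · simp
    · simp

/-- The sequence `(1, n, 0)`, `n ∈ ℕ`, of points of the domain. -/
def A : Set (ℂ × ℂ × ℂ) := Set.range fun n : ℕ => ((1 : ℂ), ((n : ℂ), (0 : ℂ)))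

theorem seq_injective : Function.Injective fun n : ℕ => ((1 : ℂ), ((n : ℂ), (0 : ℂ))) := by
  intro m n h
  simp only [Prod.mk.injEq, true_and, and_true] at h
  exact_mod_cast h

theorem accPt_A (x : ℂ × ℂ × ℂ) : ¬ AccPt x (𝓟 A) := by
  intro h
  rw [accPt_iff_nhds] at h
  obtain ⟨y, ⟨hyU, ⟨n, hn⟩⟩, hyx⟩ := h (Metric.ball x (1 / 2)) (Metric.ball_mem_nhds _ (by norm_num))
  -- take a smaller ball
  have hpos : 0 < dist y x := dist_pos.2 hyx
  obtain ⟨z, ⟨hzU, ⟨m, hm⟩⟩, hzx⟩ := h (Metric.ball x (min (1 / 2) (dist y x)))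
    (Metric.ball_mem_nhds _ (lt_min (by norm_num) hpos))
  rw [Metric.mem_ball] at hyU hzU
  have h1 : dist z x < 1 / 2 := lt_of_lt_of_le hzU (min_le_left _ _)
  have h2 : dist z x < dist y x := lt_of_lt_of_le hzU (min_le_right _ _)
  have hmn : m ≠ n := by
    rintro rfl
    rw [← hn, ← hm] at h2
    exact lt_irrefl _ h2
  have h3 : dist y z < 1 := by
    calc dist y z ≤ dist y x + dist z x := dist_triangle_right _ _ _
      _ < 1 := by linarith
  have h4 : dist (n : ℂ) (m : ℂ) ≤ dist y z := by
    rw [← hn, ← hm]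
    simp only [Prod.dist_eq]
    simp
  have h5 : dist (n : ℂ) (m : ℂ) = |(n : ℝ) - m| := by
    rw [Complex.dist_eq]
    have : (n : ℂ) - m = ((n - m : ℝ) : ℂ) := by push_cast; ring
    rw [this, Complex.norm_real, Real.norm_eq_abs]
  have h6 : (1 : ℝ) ≤ |(n : ℝ) - m| := by
    have : (1 : ℤ) ≤ |(n : ℤ) - m| := Int.one_le_abs (by omega)
    exact_mod_cast this
  linarith

theorem isTame_A : IsTame Dom A := by
  refine ⟨?_, Set.infinite_range_of_injective seq_injective, fun x _ => accPt_A x, ?_⟩
  · rintro _ ⟨n, rfl⟩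
    simp [Dom]
  · intro f hf hinj
    have h1 : ∀ n : ℕ, ∃ m : ℕ, f (1, (n, 0)) = (1, ((m : ℂ), 0)) := by
      intro n
      obtain ⟨m, hm⟩ := hf ⟨n, rfl⟩
      exact ⟨m, hm.symm⟩
    choose g hg using h1
    have ginj : Function.Injective g := by
      intro m n h
      apply seq_injective
      apply hinj ⟨m, rfl⟩ ⟨n, rfl⟩
      show f (1, (m, 0)) = f (1, (n, 0))
      rw [hg, hg, h]
    obtain ⟨u, hu, hun⟩ := entire_interp fun n => (g n : ℂ)
    classical
    obtain ⟨v, hv, hvn⟩ := entire_interp fun m => (m : ℂ) - (Function.invFun g m : ℕ)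
    have hvg : ∀ n : ℕ, v (g n) = (g n : ℂ) - n := by
      intro n
      rw [hvn, Function.leftInverse_invFun ginj n]
    refine ⟨fun p => (p.1, (p.2.1 + v (p.2.2 + u p.2.1),
        (p.2.2 + u p.2.1) - (p.2.1 + v (p.2.2 + u p.2.1)))), ⟨?_, ?_, 
      fun q => (q.1, (q.2.1 - v (q.2.2 + q.2.1),
        (q.2.2 + q.2.1) - u (q.2.1 - v (q.2.2 + q.2.1)))), ?_, ?_, ?_, ?_⟩, ?_⟩
    · intro p hp; exact hp
    · apply Differentiable.differentiableOn; fun_prop
    · intro p hp; exact hp
    · apply Differentiable.differentiableOn; fun_prop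
    · intro p _
      refine Prod.ext rfl (Prod.ext ?_ ?_)
      · simp
      · simp
    · intro p _
      refine Prod.ext rfl (Prod.ext ?_ ?_)
      · simp
      · simp
    · rintro _ ⟨n, rfl⟩
      show ((1 : ℂ), ((n : ℂ) + v (0 + u n), (0 + u n) - ((n : ℂ) + v (0 + u n)))) =
        f (1, (n, 0))
      rw [hg, hun, zero_add, hvg]
      simp

/-- The first component of a complete field on the domain vanishes. -/
theorem complete_fst {V : ℂ × ℂ × ℂ → ℂ × ℂ × ℂ} (hV : IsCompleteField Dom V)
    {x : ℂ × ℂ × ℂ} (hx : x ∈ Dom) : (V x).1 = 0 := by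
  obtain ⟨γ, h0, hU, hd⟩ := hV.2 x hx
  have hd1 : ∀ t, HasDerivAt (fun t => (γ t).1) (V (γ t)).1 t := fun t => (hd t).fst
  have hE : ∀ t, HasDerivAt (fun t => Complex.exp (-(γ t).1))
      (Complex.exp (-(γ t).1) * -(V (γ t)).1) t := fun t => (hd1 t).fun_neg.cexp
  have hdiff : Differentiable ℂ (fun t => Complex.exp (-(γ t).1)) :=
    fun t => (hE t).differentiableAt
  have hb : Bornology.IsBounded (Set.range fun t => Complex.exp (-(γ t).1)) := by
    rw [isBounded_iff_forall_norm_le]
    refine ⟨1, ?_⟩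
    rintro _ ⟨t, rfl⟩
    rw [Complex.norm_exp]
    have : 0 < (γ t).1.re := hU t
    rw [Real.exp_le_one_iff]
    simp
    exact this.le
  have hc := hdiff.apply_eq_apply_of_bounded hb
  have hconst : (fun t => Complex.exp (-(γ t).1)) = fun _ => Complex.exp (-(γ 0).1) := by
    funext t; exact hc t 0
  have h2 := hE 0
  rw [hconst] at h2
  have h3 := h2.unique (hasDerivAt_const _ _)
  simp only [mul_neg, neg_eq_zero, mul_eq_zero, Complex.exp_ne_zero, false_or] at h3
  rw [h0] at h3
  exact h3

theorem inLie_fst {W : ℂ × ℂ × ℂ → ℂ × ℂ × ℂ} (hW : InLie Dom W) :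
    ∀ x ∈ Dom, (W x).1 = 0 := by
  induction hW with
  | complete V hV => exact fun x hx => complete_fst hV hx
  | add V W _ _ h1 h2 => intro x hx; simp [h1 x hx, h2 x hx]
  | smul c V _ h1 => intro x hx; simp [h1 x hx]
  | bracket V W _ _ h1 h2 =>
    have key : ∀ (G : ℂ × ℂ × ℂ → ℂ × ℂ × ℂ), (∀ x ∈ Dom, (G x).1 = 0) → ∀ x ∈ Dom, ∀ v,
        (fderiv ℂ G x v).1 = 0 := by
      intro G hG x hx v
      by_cases hd : DifferentiableAt ℂ G x
      · have e1 : (fderiv ℂ G x v).1 = fderiv ℂ (fun y => (G y).1) x v := by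
          rw [fderiv.fst hd]; rfl
        rw [e1]
        have e2 : (fun y => (G y).1) =ᶠ[𝓝 x] fun _ => (0 : ℂ) := by
          filter_upwards [isOpen_Dom.mem_nhds hx] with y hy using hG y hy
        rw [e2.fderiv_eq]
        simp
      · rw [fderiv_zero_of_not_differentiableAt hd]; rfl
    intro x hx
    rw [Prod.fst_sub, key W h2 x hx, key V h1 x hx, sub_zero]

end Pool.Agent.V1172.TameDisc
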